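import Mathlib

namespace Pool.Agent.P.MP_140fc6_an

variable (X : Type*) [NormedAddCommGroup X] [NormedSpace ℝ X]

/-- `X` is weakly octahedral. -/
def WeaklyOctahedral : Prop :=
  ∀ E : Submodule ℝ X, FiniteDimensional ℝ E → ∀ f : StrongDual ℝ X, ‖f‖ ≤ 1 → ∀ ε : ℝ, 0 < ε →
    ∃ y : X, ‖y‖ = 1 ∧ ∀ x ∈ E, (1 - ε) * (|f x| + ‖y‖) ≤ ‖x + y‖

/-- `X` has property (P). -/
def PropertyP : Prop :=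
  ∀ ε : ℝ, 0 < ε → ∀ (n : ℕ) (x : Fin n → X), (∀ i, ‖x i‖ = 1) → ∀ f : StrongDual ℝ X, ‖f‖ ≤ 1 →
    ∃ y : X, ‖y‖ = 1 ∧ ∀ i, (1 - ε) * (|f (x i)| + 1) ≤ ‖x i + y‖

end Pool.Agent.P.MP_140fc6_an
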