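import Pool.Agent.P.MP_140fc6_an.Defs

namespace Pool.Agent.P.MP_140fc6_an

open Metric Set

variable {X : Type*} [NormedAddCommGroup X] [NormedSpace ℝ X]

theorem propertyP_of_woh (h : WeaklyOctahedral X) : PropertyP X := by
  intro ε hε n x _ f hf
  obtain ⟨y, hy, H⟩ := h (Submodule.span ℝ (Set.range x))
    (FiniteDimensional.span_of_finite ℝ (Set.finite_range x)) f hf ε hε
  refine ⟨y, hy, fun i => ?_⟩
  have := H (x i) (Submodule.subset_span ⟨i, rfl⟩)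
  rwa [hy] at this

theorem PropertyP.finite (h : PropertyP X) {ε : ℝ} (hε : 0 < ε) {ι : Type*} [Finite ι]
    (x : ι → X) (hx : ∀ i, ‖x i‖ = 1) (f : StrongDual ℝ X) (hf : ‖f‖ ≤ 1) :
    ∃ y : X, ‖y‖ = 1 ∧ ∀ i, (1 - ε) * (|f (x i)| + 1) ≤ ‖x i + y‖ := by
  obtain ⟨n, ⟨e⟩⟩ := Finite.exists_equiv_fin ι
  obtain ⟨y, hy, H⟩ := h ε hε n (fun j => x (e.symm j)) (fun j => hx _) f hf
  exact ⟨y, hy, fun i => by simpa using H (e i)⟩

theorem PropertyP.not_finiteDimensional (h : PropertyP X) : ¬ FiniteDimensional ℝ X := by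
  intro hX
  have : ProperSpace X := FiniteDimensional.proper_real X
  obtain ⟨t, hts, htf, hcov⟩ :=
    (isCompact_sphere (0 : X) 1).finite_cover_balls (e := 1 / 4) (by norm_num)
  have := htf.to_subtype
  obtain ⟨y, hy, H⟩ := h.finite (ε := 1 / 2) (by norm_num) (fun a : t => (a : X))
    (fun a => by simpa using hts a.2) 0 (by simp)
  have hm : -y ∈ sphere (0 : X) 1 := by simpa using hy
  obtain ⟨a, ha, hya⟩ := mem_iUnion₂.mp (hcov hm)
  have h1 := H ⟨a, ha⟩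
  rw [mem_ball, dist_comm, dist_eq_norm, sub_neg_eq_add] at hya
  simp at h1
  linarith

theorem exists_norm_one_extension (E : Submodule ℝ X) [FiniteDimensional ℝ E] (hE : E ≠ ⊤)
    (f : StrongDual ℝ X) (hf : ‖f‖ ≤ 1) :
    ∃ g : StrongDual ℝ X, ‖g‖ = 1 ∧ ∀ x ∈ E, g x = f x := by
  obtain ⟨x₀, hx₀⟩ : ∃ x₀, x₀ ∉ E := by
    by_contra hc
    push Not at hc
    exact hE (Submodule.eq_top_iff'.mpr hc)
  obtain ⟨φ, u, h1, h2⟩ := geometric_hahn_banach_point_closed E.convex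
    E.closed_of_finiteDimensional hx₀
  have hu : u < 0 := by simpa using h2 0 E.zero_mem
  have hφE : ∀ x ∈ E, φ x = 0 := by
    intro x hx
    by_contra hne
    have := h2 ((u / φ x) • x) (E.smul_mem _ hx)
    rw [map_smul, smul_eq_mul, div_mul_cancel₀ _ hne] at this
    exact lt_irrefl _ this
  have hφ : 0 < ‖φ‖ := by
    rw [norm_pos_iff]
    rintro rfl
    simp at h1
    linarith
  have hc : ContinuousOn (fun t : ℝ => ‖f + t • φ‖) (Icc 0 (2 / ‖φ‖)) := by fun_prop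
  have hmem : (1 : ℝ) ∈ Icc ‖f + (0 : ℝ) • φ‖ ‖f + (2 / ‖φ‖) • φ‖ := by
    refine ⟨by simpa using hf, ?_⟩
    have h3 : ‖(2 / ‖φ‖) • φ‖ = 2 := by
      rw [norm_smul, Real.norm_of_nonneg (by positivity), div_mul_cancel₀ _ hφ.ne']
    have h4 := norm_sub_le (f + (2 / ‖φ‖) • φ) f
    rw [add_sub_cancel_left, h3] at h4
    linarith
  obtain ⟨t, -, ht⟩ := intermediate_value_Icc (by positivity) hc hmem
  exact ⟨f + t • φ, ht, fun x hx => by simp [hφE x hx]⟩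

theorem exists_lift (g : StrongDual ℝ X) (hg : ‖g‖ = 1) {δ : ℝ} (hδ : 0 < δ) (hδ' : δ ≤ 1 / 2)
    (a : X) (ha : ‖a‖ ≤ 1) :
    ∃ w : X, ‖w‖ = 1 ∧ ∀ y : X, (1 - δ) * (|g w| + 1) ≤ ‖w + y‖ → 1 + |g a| - 10 * δ ≤ ‖a + y‖ := by
  obtain ⟨z₀, hz₀, hgz₀⟩ := g.exists_lt_apply_of_lt_opNorm (r := 1 - δ) (by linarith)
  obtain ⟨z, hz, hzl, hgz⟩ : ∃ z : X, ‖z‖ ≤ 1 ∧ 1 / 2 ≤ ‖z‖ ∧
      ∀ s : ℝ, 0 ≤ s → |g a| + s * (1 - δ) ≤ |g (a + s • z)| := by
    have hl : 1 / 2 ≤ ‖z₀‖ := by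
      have := g.le_opNorm z₀
      rw [hg, one_mul] at this
      linarith
    rw [Real.norm_eq_abs] at hgz₀
    rcases le_total 0 (g a) with h1 | h1 <;> rcases le_total 0 (g z₀) with h2 | h2
    · refine ⟨z₀, hz₀.le, hl, fun s hs => ?_⟩
      rw [abs_of_nonneg h2] at hgz₀
      rw [map_add, map_smul, smul_eq_mul, abs_of_nonneg h1]
      exact le_trans (by nlinarith) (le_abs_self _)
    · refine ⟨-z₀, by simpa using hz₀.le, by simpa using hl, fun s hs => ?_⟩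
      rw [abs_of_nonpos h2] at hgz₀
      rw [map_add, map_smul, map_neg, smul_eq_mul, abs_of_nonneg h1]
      exact le_trans (by nlinarith) (le_abs_self _)
    · refine ⟨-z₀, by simpa using hz₀.le, by simpa using hl, fun s hs => ?_⟩
      rw [abs_of_nonneg h2] at hgz₀
      rw [map_add, map_smul, map_neg, smul_eq_mul, abs_of_nonpos h1]
      exact le_trans (by nlinarith) (neg_le_abs _)
    · refine ⟨z₀, hz₀.le, hl, fun s hs => ?_⟩
      rw [abs_of_nonpos h2] at hgz₀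
      rw [map_add, map_smul, smul_eq_mul, abs_of_nonpos h1]
      exact le_trans (by nlinarith) (neg_le_abs _)
  have hc : ContinuousOn (fun s : ℝ => ‖a + s • z‖) (Icc 0 4) := by fun_prop
  have hmem : (1 : ℝ) ∈ Icc ‖a + (0 : ℝ) • z‖ ‖a + (4 : ℝ) • z‖ := by
    refine ⟨by simpa using ha, ?_⟩
    have h3 : ‖(4 : ℝ) • z‖ = 4 * ‖z‖ := by rw [norm_smul]; norm_num
    have h4 := norm_sub_le (a + (4 : ℝ) • z) a
    rw [add_sub_cancel_left, h3] at h4
    linarith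
  obtain ⟨s, ⟨hs0, hs4⟩, hs⟩ := intermediate_value_Icc (by norm_num) hc hmem
  refine ⟨a + s • z, hs, fun y hy => ?_⟩
  have h1 : ‖a + s • z + y‖ ≤ ‖a + y‖ + s := by
    have : a + s • z + y = (a + y) + s • z := by abel
    rw [this]
    refine (norm_add_le _ _).trans ?_
    rw [norm_smul, Real.norm_of_nonneg hs0]
    nlinarith
  have h2 := hgz s hs0
  have h3 : |g a| ≤ 1 := by
    have := g.le_opNorm a
    rw [hg, one_mul, Real.norm_eq_abs] at this
    linarith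
  have h4 : (1 - δ) * (|g a| + s * (1 - δ) + 1) ≤ (1 - δ) * (|g (a + s • z)| + 1) :=
    mul_le_mul_of_nonneg_left (by linarith) (by linarith)
  have h5 : 0 ≤ s * δ ^ 2 := by positivity
  have h6 : δ * |g a| ≤ δ := by nlinarith
  have h7 : δ * s ≤ δ * 4 := by nlinarith
  nlinarith

theorem PropertyP.ball (h : PropertyP X) (E : Submodule ℝ X) [FiniteDimensional ℝ E]
    (f : StrongDual ℝ X) (hf : ‖f‖ ≤ 1) {δ : ℝ} (hδ : 0 < δ) (hδ' : δ ≤ 1 / 2) :
    ∃ y : X, ‖y‖ = 1 ∧ ∀ x ∈ E, ‖x‖ ≤ 1 → 1 + |f x| - 12 * δ ≤ ‖x + y‖ := by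
  have hE : E ≠ ⊤ := by
    rintro rfl
    exact h.not_finiteDimensional (Submodule.topEquiv.finiteDimensional)
  obtain ⟨g, hg, hgf⟩ := exists_norm_one_extension E hE f hf
  have : ProperSpace E := FiniteDimensional.proper_real E
  obtain ⟨t, hts, htf, hcov⟩ := (isCompact_closedBall (0 : E) 1).finite_cover_balls hδ
  have := htf.to_subtype
  choose w hw hw' using fun a : t => exists_lift g hg hδ hδ' ((a : E) : X)
    (by simpa using hts a.2)
  obtain ⟨y, hy, H⟩ := h.finite hδ w hw g hg.le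
  refine ⟨y, hy, fun x hx hx1 => ?_⟩
  have hm : (⟨x, hx⟩ : E) ∈ closedBall (0 : E) 1 := by simpa using hx1
  obtain ⟨a, ha, hxa⟩ := mem_iUnion₂.mp (hcov hm)
  have h1 := hw' ⟨a, ha⟩ y (H ⟨a, ha⟩)
  have h2 : ‖x - (a : X)‖ < δ := by
    rw [mem_ball, Subtype.dist_eq, dist_eq_norm] at hxa
    exact hxa
  have h3 : ‖(a : X) + y‖ ≤ ‖x + y‖ + ‖x - (a : X)‖ := by
    have : (a : X) + y = (x + y) - (x - (a : X)) := by abel
    rw [this]; exact norm_sub_le _ _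
  have h4 : |g x| ≤ |g (a : X)| + ‖x - (a : X)‖ := by
    have h5 := g.le_opNorm (x - (a : X))
    rw [hg, one_mul, Real.norm_eq_abs, map_sub] at h5
    have := abs_add_le (g (a : X)) (g x - g (a : X))
    rw [add_sub_cancel] at this
    linarith
  rw [← hgf x hx]
  simp only at h1
  linarith

theorem woh_of_propertyP (h : PropertyP X) : WeaklyOctahedral X := by
  intro E hE f hf ε hε
  rcases le_or_gt 1 ε with hε1 | hε1
  · obtain ⟨y, hy, -⟩ := h 1 one_pos 0 Fin.elim0 (fun i => i.elim0) f hf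
    refine ⟨y, hy, fun x _ => le_trans ?_ (norm_nonneg _)⟩
    exact mul_nonpos_of_nonpos_of_nonneg (by linarith) (by positivity)
  obtain ⟨y, hy, H⟩ := h.ball E f hf (δ := ε ^ 2 / 24) (by positivity) (by nlinarith)
  refine ⟨y, hy, fun x hx => ?_⟩
  rw [hy]
  have hfx : |f x| ≤ ‖x‖ := by
    have := f.le_opNorm x
    rw [Real.norm_eq_abs] at this
    nlinarith [norm_nonneg x]
  have hfx0 := abs_nonneg (f x)
  rcases le_or_gt ‖x‖ 1 with h1 | h1
  · have := H x hx h1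
    nlinarith
  rcases le_or_gt 2 (ε * ‖x‖) with h2 | h2
  · have h3 := norm_sub_le (x + y) y
    rw [add_sub_cancel_right, hy] at h3
    nlinarith
  · have hx0 : 0 < ‖x‖ := by linarith
    have hu : ‖‖x‖⁻¹ • x‖ = 1 := by
      rw [norm_smul, norm_inv, norm_norm, inv_mul_cancel₀ hx0.ne']
    have h3 := H (‖x‖⁻¹ • x) (E.smul_mem _ hx) hu.le
    have h4 : ‖x‖ * ‖‖x‖⁻¹ • x + y‖ ≤ ‖x + y‖ + (‖x‖ - 1) := by
      have h5 : ‖x‖ • (‖x‖⁻¹ • x + y) = (x + y) + (‖x‖ - 1) • y := by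
        rw [smul_add, smul_smul, mul_inv_cancel₀ hx0.ne', one_smul, sub_smul, one_smul]; abel
      have h6 := norm_add_le (x + y) ((‖x‖ - 1) • y)
      rw [← h5, norm_smul, norm_smul, norm_norm, hy, mul_one,
        Real.norm_of_nonneg (by linarith)] at h6
      exact h6
    have h7 : ‖x‖ * |f (‖x‖⁻¹ • x)| = |f x| := by
      rw [map_smul, smul_eq_mul, abs_mul, abs_of_pos (inv_pos.mpr hx0), ← mul_assoc,
        mul_inv_cancel₀ hx0.ne', one_mul]
    have h8 := mul_le_mul_of_nonneg_left h3 hx0.le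
    have h9 : ‖x‖ * (12 * (ε ^ 2 / 24)) ≤ ε := by nlinarith
    nlinarith

end Pool.Agent.P.MP_140fc6_an
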